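import Mathlib

/-!
# Project Y734/M: quadratic integral points of `M_{0,n}`

Statements of the lemmas. A point of `M_{0,n}` over a quadratic field is given by vectors `P i` of
`L ^ 2`; the norms `u i j` of the determinants `det (P i, P j)` satisfy the quintic equation
`G5 u = 0` for any five of the points.
-/

set_option autoImplicit false

namespace Pool.Agent.Y734.M

/-- restriction of a function of two variables along `f` -/
def pull {m n : ℕ} {R : Type} (u : Fin n → Fin n → R) (f : Fin m → Fin n) : Fin m → Fin m → R :=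
  fun i j => u (f i) (f j)

/-- symmetric functions -/
def Sy {n : ℕ} {R : Type} (u : Fin n → Fin n → R) : Prop := ∀ i j, u i j = u j i

/-- the twenty-two terms of `G5`: the twelve pentagons, and the ten unions of a double edge and a
triangle -/
def tm : Fin 22 → Fin 5 → Fin 5 × Fin 5 := ![
  ![(0, 1), (1, 2), (2, 3), (3, 4), (0, 4)],
  ![(0, 1), (1, 2), (2, 4), (3, 4), (0, 3)],
  ![(0, 1), (1, 3), (2, 3), (2, 4), (0, 4)],
  ![(0, 1), (1, 3), (3, 4), (2, 4), (0, 2)],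
  ![(0, 1), (1, 4), (2, 4), (2, 3), (0, 3)],
  ![(0, 1), (1, 4), (3, 4), (2, 3), (0, 2)],
  ![(0, 2), (1, 2), (1, 3), (3, 4), (0, 4)],
  ![(0, 2), (1, 2), (1, 4), (3, 4), (0, 3)],
  ![(0, 2), (2, 3), (1, 3), (1, 4), (0, 4)],
  ![(0, 2), (2, 4), (1, 4), (1, 3), (0, 3)],
  ![(0, 3), (1, 3), (1, 2), (2, 4), (0, 4)],
  ![(0, 3), (2, 3), (1, 2), (1, 4), (0, 4)],
  ![(0, 1), (0, 1), (2, 3), (2, 4), (3, 4)],
  ![(0, 2), (0, 2), (1, 3), (1, 4), (3, 4)],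
  ![(0, 3), (0, 3), (1, 2), (1, 4), (2, 4)],
  ![(0, 4), (0, 4), (1, 2), (1, 3), (2, 3)],
  ![(1, 2), (1, 2), (0, 3), (0, 4), (3, 4)],
  ![(1, 3), (1, 3), (0, 2), (0, 4), (2, 4)],
  ![(1, 4), (1, 4), (0, 2), (0, 3), (2, 3)],
  ![(2, 3), (2, 3), (0, 1), (0, 4), (1, 4)],
  ![(2, 4), (2, 4), (0, 1), (0, 3), (1, 3)],
  ![(3, 4), (3, 4), (0, 1), (0, 2), (1, 2)]]

/-- the product of the values at the edges of the term `t` -/
def mo {R : Type} [CommRing R] (u : Fin 5 → Fin 5 → R) (t : Fin 22) : R :=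
  ∏ k, u (tm t k).1 (tm t k).2

/-- the weight of the term `t` -/
def wt (e : Fin 5 → Fin 5 → ℤ) (t : Fin 22) : ℤ := ∑ k, e (tm t k).1 (tm t k).2

/-- half the determinant of the symmetric matrix with entries `u i j` and zero diagonal -/
def G5 {R : Type} [CommRing R] (u : Fin 5 → Fin 5 → R) : R :=
  ∑ t : Fin 22, (if (t : ℕ) < 12 then 1 else -1) * mo u t

/-- weights `e i j = s i + s j` up to a constant: the weights of all cross ratios are zero -/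
def Tri0 {n : ℕ} (e : Fin n → Fin n → ℤ) : Prop :=
  ∀ f : Fin 4 → Fin n, Function.Injective f →
    e (f 0) (f 1) + e (f 2) (f 3) = e (f 0) (f 2) + e (f 1) (f 3)

/-- `e` is equivalent to a multiple of `r` -/
def Ray (r e : Fin 5 → Fin 5 → ℤ) : Prop :=
  ∃ (k : ℤ) (s : Fin 5 → ℤ), k ≠ 0 ∧ ∀ i j, i ≠ j → 2 * e i j = 2 * k * r i j + s i + s j

/-- point `1` moves, the other points have constant cross ratio -/
def rA : Fin 5 → Fin 5 → ℤ := ![![0,0,0,0,0],![0,0,1,1,0],![0,1,0,0,0],![0,1,0,0,0],![0,0,0,0,0]]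

/-- involution fixing `4` which interchanges `0, 3` and `1, 2` -/
def rB : Fin 5 → Fin 5 → ℤ := ![![0,0,0,1,0],![0,0,1,0,0],![0,1,0,0,0],![1,0,0,0,0],![0,0,0,0,0]]

/-- involution fixing `4` which interchanges `0, 3` and `1, 2` -/
def rC : Fin 5 → Fin 5 → ℤ := ![![0,0,1,0,0],![0,0,1,1,0],![1,1,0,0,0],![0,1,0,0,0],![0,0,0,0,0]]

/-- impossible weights -/
def rD : Fin 5 → Fin 5 → ℤ := ![![0,0,0,2,0],![0,0,2,1,0],![0,2,0,1,0],![2,1,1,0,0],![0,0,0,0,0]]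

/-- impossible weights -/
def rE : Fin 5 → Fin 5 → ℤ := ![![0,0,0,1,0],![0,0,1,2,0],![0,1,0,0,0],![1,2,0,0,0],![0,0,0,0,0]]

/-- impossible weights -/
def rF : Fin 5 → Fin 5 → ℤ := ![![0,0,0,1,0],![0,0,2,2,0],![0,2,0,0,0],![1,2,0,0,0],![0,0,0,0,0]]

/-- impossible weights -/
def rG : Fin 5 → Fin 5 → ℤ := ![![0,0,1,2,0],![0,0,2,1,0],![1,2,0,0,0],![2,1,0,0,0],![0,0,0,0,0]]

/-- impossible weights, two parameters -/
def fI (x y w : ℤ) : Fin 5 → Fin 5 → ℤ :=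
  ![![0,x,x,y,0],![x,0,w,w,0],![x,w,0,y,0],![y,w,y,0,0],![0,0,0,0,0]]

/-- impossible weights, two parameters -/
def fII (x y w : ℤ) : Fin 5 → Fin 5 → ℤ :=
  ![![0,x,y,w,0],![x,0,w,y,0],![y,w,0,x,0],![w,y,x,0,0],![0,0,0,0,0]]

/-- distinct and not in arithmetic progression -/
def NonAP (x y w : ℤ) : Prop :=
  x ≠ y ∧ y ≠ w ∧ x ≠ w ∧ 2 * x ≠ y + w ∧ 2 * y ≠ x + w ∧ 2 * w ≠ x + y

/-- `e` is equivalent to one of the weights `r x y w`, with `x, y, w` not in arithmetic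
progression -/
def Pl (r : ℤ → ℤ → ℤ → Fin 5 → Fin 5 → ℤ) (e : Fin 5 → Fin 5 → ℤ) : Prop :=
  ∃ (x y w : ℤ) (s : Fin 5 → ℤ), NonAP x y w ∧ ∀ i j, i ≠ j → 2 * e i j = r x y w i j + s i + s j

/-- Job PAIR. Classification of the weights for which no term of `G5` has a weight of its own. -/
def PairStmt : Prop :=
  ∀ e : Fin 5 → Fin 5 → ℤ, Sy e → (∀ t, ∃ t', t' ≠ t ∧ wt e t' = wt e t) →
    Tri0 e ∨ ∃ σ : Equiv.Perm (Fin 5), Ray rA (pull e σ) ∨ Ray rB (pull e σ) ∨ Ray rC (pull e σ) ∨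
      Ray rD (pull e σ) ∨ Ray rE (pull e σ) ∨ Ray rF (pull e σ) ∨ Ray rG (pull e σ) ∨
      Pl fI (pull e σ) ∨ Pl fII (pull e σ)

/-- the family `u i j z ^ e i j` is contained in `G5 = 0` -/
def Fa (u : Fin 5 → Fin 5 → ℚ) (e : Fin 5 → Fin 5 → ℤ) : Prop :=
  ∀ z : ℚ, z ≠ 0 → G5 (fun i j => u i j * z ^ e i j) = 0

/-- the discriminant of the quadratic equation of the cross ratio of four points -/
def HN {n : ℕ} (u : Fin n → Fin n → ℚ) (i j k l : Fin n) : ℚ :=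
  (u i j * u k l) ^ 2 + (u i k * u j l) ^ 2 + (u i l * u j k) ^ 2 -
    2 * (u i j * u k l) * (u i k * u j l) - 2 * (u i k * u j l) * (u i l * u j k) -
    2 * (u i l * u j k) * (u i j * u k l)

/-- Euler's form of a quadrilateral: zero if and only if there is an involution which fixes `m` and
interchanges `i, l` and `j, k` -/
def EU {n : ℕ} (u : Fin n → Fin n → ℚ) (i j k l m : Fin n) : ℚ :=
  u i j * u k m * u l m + u i k * u j m * u l m + u j l * u i m * u k m + u k l * u i m * u j m -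
    u i l * u j m * u k m - u j k * u i m * u l m

/-- Job ALGA. The families with weights `rA`, `rB`, `rC`. -/
def AlgaStmt : Prop :=
  ∀ (u : Fin 5 → Fin 5 → ℚ) (e : Fin 5 → Fin 5 → ℤ), Sy u → (∀ i j, i ≠ j → u i j ≠ 0) →
    Fa u e → (Ray rA e → HN u 0 2 3 4 = 0) ∧ (Ray rB e → EU u 0 1 2 3 4 = 0) ∧
      (Ray rC e → EU u 0 1 2 3 4 = 0)

/-- Job ALGB. There are no families with weights `rD`, …, `rG`, `fI`, `fII`. -/
def AlgbStmt : Prop :=
  ∀ (u : Fin 5 → Fin 5 → ℚ) (e : Fin 5 → Fin 5 → ℤ), Sy u → (∀ i j, i ≠ j → u i j ≠ 0) →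
    Fa u e → ¬ Ray rD e ∧ ¬ Ray rE e ∧ ¬ Ray rF e ∧ ¬ Ray rG e ∧ ¬ Pl fI e ∧ ¬ Pl fII e

/-- The classification of the families for five points. -/
def P5Stmt : Prop :=
  ∀ (u : Fin 5 → Fin 5 → ℚ) (e : Fin 5 → Fin 5 → ℤ), Sy u → (∀ i j, i ≠ j → u i j ≠ 0) → Sy e →
    Fa u e → Tri0 e ∨ ∃ σ : Equiv.Perm (Fin 5),
      (Ray rA (pull e σ) ∧ HN (pull u σ) 0 2 3 4 = 0) ∨
      ((Ray rB (pull e σ) ∨ Ray rC (pull e σ)) ∧ EU (pull u σ) 0 1 2 3 4 = 0)

/-- Job KSIX. Six points: there are two involutions which interchange the same two pairs. `E p` is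
a property of five of the points, invariant under the symmetries of the involution. -/
def KsixStmt : Prop :=
  ∀ (e : Fin 6 → Fin 6 → ℤ) (E : (Fin 5 → Fin 6) → Prop), Sy e → ¬ Tri0 e →
    (∀ p : Fin 5 → Fin 6, E p → E ![p 3, p 1, p 2, p 0, p 4]) →
    (∀ p : Fin 5 → Fin 6, E p → E ![p 1, p 0, p 3, p 2, p 4]) →
    (∀ f : Fin 5 → Fin 6, Function.Injective f → Tri0 (pull e f) ∨ ∃ σ : Equiv.Perm (Fin 5),
      Ray rA (pull e (f ∘ σ)) ∨
        ((Ray rB (pull e (f ∘ σ)) ∨ Ray rC (pull e (f ∘ σ))) ∧ E (f ∘ σ))) →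
    ∃ g : Fin 6 → Fin 6, Function.Injective g ∧ E ![g 0, g 1, g 2, g 3, g 4] ∧
      E ![g 0, g 1, g 2, g 3, g 5]

/-- Job KSEV. Seven points: the weights are trivial. -/
def KsevStmt : Prop :=
  ∀ e : Fin 7 → Fin 7 → ℤ, Sy e →
    (∀ f : Fin 5 → Fin 7, Function.Injective f → Tri0 (pull e f) ∨ ∃ σ : Equiv.Perm (Fin 5),
      Ray rA (pull e (f ∘ σ)) ∨ Ray rB (pull e (f ∘ σ)) ∨ Ray rC (pull e (f ∘ σ))) → Tri0 e

end Pool.Agent.Y734.M
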