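import Mathlib
import Pool.Agent.Y734.M.Stms

/-!
# Project Y734/M: quadratic integral points of `M_{0,n}`, statements on points

Statements of the lemmas on points over quadratic fields.
-/

set_option autoImplicit false

namespace Pool.Agent.Y734.M

open NumberField

/-- the determinant of two vectors -/
def dt {R : Type} [CommRing R] (P Q : Fin 2 → R) : R := P 0 * Q 1 - P 1 * Q 0

/-- the cross ratio of four of the points -/
noncomputable def cr {L : Type} [Field L] {n : ℕ} (P : Fin n → Fin 2 → L) (i j k l : Fin n) : L :=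
  dt (P i) (P j) * dt (P k) (P l) / (dt (P i) (P k) * dt (P j) (P l))

/-- units of the ring of elements integral outside `S` -/
def SU (S : Finset ℕ) {L : Type} [Field L] (a : L) : Prop :=
  a ≠ 0 ∧ ∃ m : ℕ, IsIntegral ℤ ((∏ p ∈ S, (p : L)) ^ m * a) ∧
    IsIntegral ℤ ((∏ p ∈ S, (p : L)) ^ m * a⁻¹)

/-- the points `P i` are different -/
def Nd {L : Type} [Field L] {n : ℕ} (P : Fin n → Fin 2 → L) : Prop :=
  ∀ i j, i ≠ j → dt (P i) (P j) ≠ 0

/-- `S`-integral points of `M_{0,n}` -/
def IP (S : Finset ℕ) {L : Type} [Field L] {n : ℕ} (P : Fin n → Fin 2 → L) : Prop :=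
  Nd P ∧ ∀ f : Fin 4 → Fin n, Function.Injective f → SU S (cr P (f 0) (f 1) (f 2) (f 3))

/-- the scaling factors for which three of the points become `∞, 1, 0` -/
noncomputable def sc {L : Type} [Field L] {n : ℕ} (P : Fin (n + 3) → Fin 2 → L)
    (i : Fin (n + 3)) : L :=
  if i = 0 then dt (P 1) (P 2) else dt (P 0) (P 1) * dt (P 0) (P 2) / dt (P 0) (P i)

/-- the determinants of the normalised vectors -/
noncomputable def nw {L : Type} [Field L] {n : ℕ} (P : Fin (n + 3) → Fin 2 → L)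
    (i j : Fin (n + 3)) : L :=
  sc P i * sc P j * dt (P i) (P j) / (dt (P 0) (P 1) * dt (P 0) (P 2) * dt (P 1) (P 2))

/-- the norms of the determinants of the normalised vectors -/
noncomputable def nu {L : Type} [Field L] [NumberField L] {n : ℕ} (P : Fin (n + 3) → Fin 2 → L)
    (i j : Fin (n + 3)) : ℚ := Algebra.norm ℚ (nw P i j)

/-- Job G5N. The norms of the determinants of five vectors satisfy the quintic equation. -/
def G5nStmt : Prop :=
  ∀ (L : Type) [Field L] [NumberField L], Module.finrank ℚ L = 2 →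
    ∀ P : Fin 5 → Fin 2 → L, G5 (fun i j => Algebra.norm ℚ (dt (P i) (P j))) = 0

/-- Job SUN. Properties of the normalised determinants: five points satisfy the quintic equation,
the norms are units outside `S`, and they are equal to one for the pairs `(0, i)` and `(1, 2)`. -/
def SunStmt : Prop :=
  ∀ (S : Finset ℕ) (_ : ∀ p ∈ S, p.Prime) (L : Type) [Field L] [NumberField L],
    Module.finrank ℚ L = 2 → ∀ (n : ℕ) (P : Fin (n + 3) → Fin 2 → L), IP S P →
      Sy (nu P) ∧ (∀ i j, i ≠ j → nu P i j ≠ 0) ∧ (∀ i, i ≠ 0 → nu P 0 i = 1) ∧ nu P 1 2 = 1 ∧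
      (∀ i j, i ≠ j → ∀ p : ℕ, p.Prime → p ∉ S → padicValRat p (nu P i j) = 0) ∧
      ∀ f : Fin 5 → Fin (n + 3), Function.Injective f → G5 (pull (nu P) f) = 0

/-- Job RAT. If the discriminant is zero, the cross ratio is rational. -/
def RatStmt : Prop :=
  ∀ (L : Type) [Field L] [NumberField L], Module.finrank ℚ L = 2 →
    ∀ (n : ℕ) (P : Fin (n + 3) → Fin 2 → L), Nd P → ∀ f : Fin 4 → Fin (n + 3),
      Function.Injective f → HN (nu P) (f 0) (f 1) (f 2) (f 3) = 0 →
        ∃ q : ℚ, cr P (f 0) (f 1) (f 2) (f 3) = q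

/-- there is an involution which fixes `m` and interchanges `i, l` and `j, k` -/
def VV {L : Type} [Field L] {n : ℕ} (P : Fin n → Fin 2 → L) (i j k l m : Fin n) : Prop :=
  dt (P i) (P j) * dt (P k) (P m) * dt (P l) (P m) =
    dt (P k) (P l) * dt (P i) (P m) * dt (P j) (P m)

/-- Job EUL. Euler's identity. -/
def EulStmt : Prop :=
  ∀ (L : Type) [Field L] [NumberField L], Module.finrank ℚ L = 2 →
    ∀ (n : ℕ) (P : Fin (n + 3) → Fin 2 → L), Nd P → ∀ f : Fin 5 → Fin (n + 3),
      Function.Injective f → EU (nu P) (f 0) (f 1) (f 2) (f 3) (f 4) = 0 →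
        VV P (f 0) (f 1) (f 2) (f 3) (f 4)

/-- the matrix `g` maps the point `P` to the point `Q` -/
def Mp {L : Type} [Field L] (g : Matrix (Fin 2) (Fin 2) L) (P Q : Fin 2 → L) : Prop :=
  ∃ c : L, g.mulVec P = c • Q

/-- Job INV. The involution for five points; it also fixes every sixth point `Q` with the same
property as the fifth. -/
def InvStmt : Prop :=
  ∀ (L : Type) [Field L] [CharZero L] (P : Fin 5 → Fin 2 → L), Nd P →
    VV P 0 1 2 3 4 → ∃ g : Matrix (Fin 2) (Fin 2) L, g.trace = 0 ∧ g.det ≠ 0 ∧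
      Mp g (P 0) (P 3) ∧ Mp g (P 3) (P 0) ∧ Mp g (P 1) (P 2) ∧ Mp g (P 2) (P 1) ∧
      Mp g (P 4) (P 4) ∧ ∀ Q : Fin 2 → L, (∀ i, dt (P i) Q ≠ 0) →
        dt (P 0) (P 1) * dt (P 2) Q * dt (P 3) Q = dt (P 2) (P 3) * dt (P 0) Q * dt (P 1) Q →
          Mp g Q Q

/-- Job FINS. There are only finitely many points of `M_{0,n}` over quadratic fields with given
norms. -/
def FinsStmt : Prop :=
  ∀ (n : ℕ) (a : Fin (n + 3) → Fin (n + 3) → ℚ),
    Set.Finite {c : Fin (n + 3) → Fin (n + 3) → Fin (n + 3) → Fin (n + 3) → ℂ |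
      ∃ (L : Type) (_ : Field L) (_ : NumberField L) (P : Fin (n + 3) → Fin 2 → L) (φ : L →+* ℂ),
        Module.finrank ℚ L = 2 ∧ Nd P ∧ (∀ i j, i ≠ j → nu P i j = a i j) ∧
          c = fun i j k l => φ (cr P i j k l)}

end Pool.Agent.Y734.M
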