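import Mathlib
import Pool.Agent.Y734.M.StmsN

/-!
# Project Y734/M: infinitely many quadratic integral points for five and six points

The points `0, ∞, 1, -1, x, -x` with `x ^ 2 = 2 ^ k x + 1` are integral outside of `2`.
-/

set_option autoImplicit false

namespace Pool.Agent.Y734.M

open NumberField

/-- a quadratic field generated by a root of `x ^ 2 = 2 ^ k x + 1`. -/
theorem exists_fld (k : ℕ) : ∃ (L : Type) (_ : Field L) (_ : NumberField L) (x : L),
    Module.finrank ℚ L = 2 ∧ x ^ 2 = 2 ^ k * x + 1 := by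
  have : Fact (∀ r : ℚ, r ^ 2 ≠ 1 + 2 ^ k * r) := ⟨by
    intro r hr
    have h1 : IsIntegral ℤ r := by
      refine ⟨Polynomial.X ^ 2 - Polynomial.C (2 ^ k) * Polynomial.X - Polynomial.C 1, ?_, ?_⟩
      · monicity!
      · simp [hr, Polynomial.eval₂_pow]
    obtain ⟨n, rfl⟩ := IsIntegrallyClosed.isIntegral_iff.1 h1
    have h2 : n * (n - 2 ^ k) = 1 := by
      have h3 : ((n : ℚ)) ^ 2 = 1 + 2 ^ k * n := by simpa using hr
      have h4 : (n : ℤ) ^ 2 = 1 + 2 ^ k * n := by exact_mod_cast h3
      linear_combination h4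
    have hpos : (0 : ℤ) < 2 ^ k := by positivity
    rcases Int.eq_one_or_neg_one_of_mul_eq_one h2 with h | h
    · rw [h] at h2; linarith
    · rw [h] at h2; linarith⟩
  have hc : CharZero (QuadraticAlgebra ℚ 1 (2 ^ k)) := inferInstance
  have hfin : Module.finrank ℚ (QuadraticAlgebra ℚ 1 (2 ^ k)) = 2 := by
    rw [← QuadraticAlgebra.finrank_eq_two (R := ℚ) 1 (2 ^ k)]
  have hf : FiniteDimensional ℚ (QuadraticAlgebra ℚ 1 (2 ^ k)) :=
    Module.finite_of_finrank_pos (by rw [hfin]; norm_num)
  refine ⟨QuadraticAlgebra ℚ 1 (2 ^ k), inferInstance, ⟨⟩, QuadraticAlgebra.omega, ?_, ?_⟩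
  · exact hfin
  · rw [pow_two]
    have := QuadraticAlgebra.omega_mul_omega_eq_algebraMap (R := ℚ) (a := 1) (b := 2 ^ k)
    rw [this]
    simp [add_comm]

section

variable {L : Type} [Field L]

theorem int_congr {a b : L} (h : IsIntegral ℤ a) (e : b = a) : IsIntegral ℤ b := by
  rw [e]; exact h

theorem su_congr {S : Finset ℕ} {a b : L} (h : SU S a) (e : b = a) : SU S b := by
  rw [e]; exact h

theorem su_mul {S : Finset ℕ} {a b : L} (ha : SU S a) (hb : SU S b) : SU S (a * b) := by
  obtain ⟨ha0, m, ha1, ha2⟩ := ha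
  obtain ⟨hb0, n, hb1, hb2⟩ := hb
  refine ⟨mul_ne_zero ha0 hb0, m + n, ?_, ?_⟩
  · exact int_congr (ha1.mul hb1) (by ring)
  · exact int_congr (ha2.mul hb2) (by rw [mul_inv]; ring)

theorem su_inv {S : Finset ℕ} {a : L} (ha : SU S a) : SU S a⁻¹ := by
  obtain ⟨ha0, m, ha1, ha2⟩ := ha
  exact ⟨inv_ne_zero ha0, m, ha2, by rwa [inv_inv]⟩

theorem su_neg {S : Finset ℕ} {a : L} (ha : SU S a) : SU S (-a) := by
  obtain ⟨ha0, m, ha1, ha2⟩ := ha
  refine ⟨neg_ne_zero.2 ha0, m, ?_, ?_⟩
  · exact int_congr ha1.neg (by ring)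
  · exact int_congr ha2.neg (by rw [inv_neg]; ring)

theorem su_one (S : Finset ℕ) : SU S (1 : L) :=
  ⟨one_ne_zero, 0, by simpa using isIntegral_one, by simpa using isIntegral_one⟩

theorem su_two [CharZero L] : SU {2} (2 : L) := by
  refine ⟨two_ne_zero, 1, ?_, ?_⟩
  · have h : IsIntegral ℤ ((4 : ℤ) : L) := isIntegral_algebraMap
    exact int_congr h (by push_cast [Finset.prod_singleton]; norm_num)
  · have h : IsIntegral ℤ (1 : L) := isIntegral_one
    exact int_congr h (by push_cast [Finset.prod_singleton]; norm_num)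

theorem int_two_pow (k : ℕ) : IsIntegral ℤ ((2 : L) ^ k) := by
  have : IsIntegral ℤ ((2 ^ k : ℤ) : L) := isIntegral_algebraMap
  push_cast at this
  exact this

variable {x : L} {k : ℕ} (hx : x ^ 2 = 2 ^ k * x + 1)

include hx in
theorem int_x : IsIntegral ℤ x := by
  refine ⟨Polynomial.X ^ 2 - Polynomial.C (2 ^ k) * Polynomial.X - Polynomial.C 1, ?_, ?_⟩
  · monicity!
  · simp [hx, Polynomial.eval₂_pow]

include hx in
theorem su_x (S : Finset ℕ) : SU S x := by
  have h0 : x ≠ 0 := by
    rintro rfl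
    norm_num at hx
  refine ⟨h0, 0, by simpa using int_x hx, ?_⟩
  have h1 : x⁻¹ = x - 2 ^ k := by
    field_simp
    linear_combination -hx
  rw [h1, pow_zero, one_mul]
  exact (int_x hx).sub (int_two_pow k)

include hx in
theorem su_xm [CharZero L] : SU {2} (x - 1) := by
  have h2 : (2 : L) ^ k ≠ 0 := pow_ne_zero _ two_ne_zero
  have h3 : (x - 1) * (x + 1 - 2 ^ k) = 2 ^ k := by linear_combination hx
  have h0 : x - 1 ≠ 0 := fun h => h2 (by rw [← h3, h, zero_mul])
  refine ⟨h0, k, ?_, ?_⟩
  · rw [Finset.prod_singleton]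
    exact_mod_cast (int_two_pow k).mul ((int_x hx).sub isIntegral_one)
  · have h4 : (2 : L) ^ k * (x - 1)⁻¹ = x + 1 - 2 ^ k := by
      field_simp
      linear_combination -h3
    rw [Finset.prod_singleton]
    push_cast
    rw [h4]
    exact ((int_x hx).add isIntegral_one).sub (int_two_pow k)

include hx in
theorem su_xp [CharZero L] : SU {2} (x + 1) := by
  have h2 : (2 : L) ^ k ≠ 0 := pow_ne_zero _ two_ne_zero
  have h3 : (x + 1) * (x - 1 - 2 ^ k) = - 2 ^ k := by linear_combination hx
  have h0 : x + 1 ≠ 0 := fun h => h2 (by rw [← neg_eq_zero, ← h3, h, zero_mul])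
  refine ⟨h0, k, ?_, ?_⟩
  · rw [Finset.prod_singleton]
    exact_mod_cast (int_two_pow k).mul ((int_x hx).add isIntegral_one)
  · have h4 : (2 : L) ^ k * (x + 1)⁻¹ = - (x - 1 - 2 ^ k) := by
      field_simp
      linear_combination h3
    rw [Finset.prod_singleton]
    push_cast
    rw [h4]
    exact (((int_x hx).sub isIntegral_one).sub (int_two_pow k)).neg

/-- the points `0, ∞, 1, -1, x, -x` -/
def pts (x : L) : Fin 6 → Fin 2 → L :=
  ![![0, 1], ![1, 0], ![1, 1], ![-1, 1], ![x, 1], ![-x, 1]]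

include hx in
theorem su_pts [CharZero L] (i j : Fin 6) (hij : i ≠ j) : SU {2} (dt (pts x i) (pts x j)) := by
  have h1 : SU {2} (1 : L) := su_one _
  have h2 : SU {2} (2 : L) := su_two
  have hx' := su_x hx {2}
  have hm := su_xm hx
  have hp := su_xp hx
  have h1' := su_neg h1
  have h2' := su_neg h2
  have hx'' := su_neg hx'
  have hm' := su_neg hm
  have hp' := su_neg hp
  have h2x := su_mul h2 hx'
  have h2x' := su_neg h2x
  fin_cases i <;> fin_cases j <;> first
    | exact absurd rfl hij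
    | (simp only [dt, pts, Fin.zero_eta, Fin.mk_one, Fin.reduceFinMk, Matrix.cons_val_zero,
        Matrix.cons_val_one, Matrix.cons_val]
       first
        | (refine su_congr h1 ?_; ring1)
        | (refine su_congr h2 ?_; ring1)
        | (refine su_congr hx' ?_; ring1)
        | (refine su_congr hm ?_; ring1)
        | (refine su_congr hp ?_; ring1)
        | (refine su_congr h1' ?_; ring1)
        | (refine su_congr h2' ?_; ring1)
        | (refine su_congr hx'' ?_; ring1)
        | (refine su_congr hm' ?_; ring1)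
        | (refine su_congr hp' ?_; ring1)
        | (refine su_congr h2x ?_; ring1)
        | (refine su_congr h2x' ?_; ring1))

include hx in
theorem ip_pts [CharZero L] {n : ℕ} (f : Fin n → Fin 6) (hf : Function.Injective f) :
    IP {2} (fun i => pts x (f i)) := by
  refine ⟨fun i j hij => (su_pts hx _ _ fun h => hij (hf h)).1, fun g hg => ?_⟩
  have hne : ∀ a b : Fin 4, a ≠ b → f (g a) ≠ f (g b) := fun a b hab h => hab (hg (hf h))
  unfold cr
  rw [div_eq_mul_inv]
  exact su_mul (su_mul (su_pts hx _ _ (hne 0 1 (by decide))) (su_pts hx _ _ (hne 2 3 (by decide))))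
    (su_inv (su_mul (su_pts hx _ _ (hne 0 2 (by decide))) (su_pts hx _ _ (hne 1 3 (by decide)))))

end

/-- For `n = 5` and `n = 6` there are infinitely many quadratic points of `M_{0,n}` which are
integral outside of `2`. -/
theorem sharp (n : ℕ) (hn : 5 ≤ n) (hn' : n ≤ 6) :
    Set.Infinite {c : Fin n → Fin n → Fin n → Fin n → ℂ |
      ∃ (L : Type) (_ : Field L) (_ : NumberField L) (P : Fin n → Fin 2 → L) (φ : L →+* ℂ),
        Module.finrank ℚ L = 2 ∧ IP {2} P ∧ c = fun i j k l => φ (cr P i j k l)} := by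
  choose L iF iN x hL hx using exists_fld
  have hφ : ∀ k, Nonempty (L k →+* ℂ) := fun k => inferInstance
  let φ : ∀ k, L k →+* ℂ := fun k => (hφ k).some
  let f : Fin n → Fin 6 := Fin.castLE hn'
  have hf : Function.Injective f := Fin.castLE_injective hn'
  refine Set.infinite_of_injective_forall_mem
    (f := fun k => fun i j l m => φ k (cr (fun i => pts (x k) (f i)) i j l m)) ?_ ?_
  · intro k k' hkk
    have h1 : (φ k (x k))⁻¹ = (φ k' (x k'))⁻¹ := by
      have h2 := congrFun (congrFun (congrFun (congrFun hkk ⟨0, by omega⟩) ⟨2, by omega⟩)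
        ⟨4, by omega⟩) ⟨1, by omega⟩
      have h3 : ∀ k, φ k (cr (fun i => pts (x k) (f i)) ⟨0, by omega⟩ ⟨2, by omega⟩
          ⟨4, by omega⟩ ⟨1, by omega⟩) = (φ k (x k))⁻¹ := by
        intro k
        rw [← map_inv₀]
        congr 1
        have e0 : f ⟨0, by omega⟩ = 0 := rfl
        have e1 : f ⟨1, by omega⟩ = 1 := rfl
        have e2 : f ⟨2, by omega⟩ = 2 := rfl
        have e4 : f ⟨4, by omega⟩ = 4 := rfl
        simp only [cr, e0, e1, e2, e4]
        simp only [dt, pts, Matrix.cons_val_zero, Matrix.cons_val_one, Matrix.cons_val]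
        have h0 := (su_x (hx k) {2}).1
        field_simp
        ring
      simpa only [h3] using h2
    have h2 : φ k (x k) = φ k' (x k') := inv_injective h1
    have h3 : ∀ k, (φ k (x k)) ^ 2 = 2 ^ k * φ k (x k) + 1 := by
      intro k
      have h4 := congrArg (φ k) (hx k)
      rw [map_add, map_mul, map_pow, map_pow, map_one, map_ofNat (φ k) 2] at h4
      exact h4
    have h4 : φ k (x k) ≠ 0 := (map_ne_zero (φ k)).2 (su_x (hx k) {2}).1
    have h5 : ((2 : ℂ) ^ k - 2 ^ k') * φ k (x k) = 0 := by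
      have e1 := h3 k
      have e2 := h3 k'
      rw [← h2] at e2
      linear_combination e2 - e1
    rcases mul_eq_zero.1 h5 with h | h
    · have h6 : ((2 ^ k : ℕ) : ℂ) = ((2 ^ k' : ℕ) : ℂ) := by
        push_cast
        exact sub_eq_zero.1 h
      exact Nat.pow_right_injective le_rfl (Nat.cast_injective h6)
    · exact absurd h h4
  · intro k
    exact ⟨L k, iF k, iN k, _, φ k, hL k, ip_pts (hx k) f hf, rfl⟩

end Pool.Agent.Y734.M
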