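import Mathlib
import Pool.Agent.Y734.M.Stms

/-!
# Project Y734/M: the levels of a family
-/

set_option autoImplicit false

namespace Pool.Agent.Y734.M

open Polynomial

/-- the monomial functions `z ^ w` are linearly independent -/
theorem lev_aux {ι : Type} [Fintype ι] (c : ι → ℚ) (w : ι → ℤ)
    (h : ∀ z : ℚ, z ≠ 0 → ∑ t, c t * z ^ w t = 0) (m : ℤ) :
    ∑ t, (if w t = m then c t else 0) = 0 := by
  classical
  obtain ⟨N, hN, hNm⟩ : ∃ N : ℤ, (∀ t, 0 ≤ w t + N) ∧ 0 ≤ m + N := by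
    refine ⟨|m| + ∑ t, |w t|, fun t => ?_, ?_⟩
    · have h1 : |w t| ≤ ∑ t, |w t| :=
        Finset.single_le_sum (f := fun t => |w t|) (fun i _ => abs_nonneg _) (Finset.mem_univ t)
      have h2 := neg_abs_le (w t)
      have h3 := abs_nonneg m
      linarith
    · have h1 : 0 ≤ ∑ t, |w t| := Finset.sum_nonneg fun i _ => abs_nonneg _
      have h2 := neg_abs_le m
      linarith
  set P : ℚ[X] := ∑ t, C (c t) * X ^ (w t + N).toNat with hP
  have hP0 : P = 0 := by
    apply Polynomial.eq_zero_of_infinite_isRoot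
    have hsub : {z : ℚ | z ≠ 0} ⊆ {z | P.IsRoot z} := by
      intro z hz
      have hz' : z ≠ 0 := hz
      simp only [Set.mem_ofPred_eq, IsRoot.def, hP, eval_finsetSum, eval_mul, eval_C, eval_pow,
        eval_X]
      have h1 : ∀ t, c t * z ^ (w t + N).toNat = (c t * z ^ w t) * z ^ N := by
        intro t
        rw [mul_assoc, ← zpow_add₀ hz', ← zpow_natCast, Int.toNat_of_nonneg (hN t)]
      rw [Finset.sum_congr rfl fun t _ => h1 t, ← Finset.sum_mul, h z hz', zero_mul]
    refine Set.Infinite.mono hsub ?_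
    have : {z : ℚ | z ≠ 0} = {0}ᶜ := by
      ext z; simp
    rw [this]
    exact (Set.finite_singleton _).infinite_compl
  have h2 : P.coeff (m + N).toNat = 0 := by rw [hP0, coeff_zero]
  rw [hP, finsetSum_coeff] at h2
  refine Eq.trans (Finset.sum_congr rfl fun t _ => ?_) h2
  rw [coeff_C_mul, coeff_X_pow]
  by_cases h3 : w t = m
  · rw [if_pos h3, if_pos (by rw [h3]), mul_one]
  · rw [if_neg h3, if_neg, mul_zero]
    intro h4
    apply h3
    have h5 := congrArg (fun n : ℕ => (n : ℤ)) h4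
    simp only [Int.toNat_of_nonneg (hN t), Int.toNat_of_nonneg hNm] at h5
    linarith

theorem mo_pow (u : Fin 5 → Fin 5 → ℚ) (e : Fin 5 → Fin 5 → ℤ) (z : ℚ) (hz : z ≠ 0) (t : Fin 22) :
    mo (fun i j => u i j * z ^ e i j) t = mo u t * z ^ wt e t := by
  unfold mo wt
  rw [Finset.prod_mul_distrib]
  congr 1
  simp only [Fin.prod_univ_five, Fin.sum_univ_five, zpow_add₀ hz]

/-- the sign of a term -/
def sg (t : Fin 22) : ℚ := if (t : ℕ) < 12 then 1 else -1

theorem sg_ne (t : Fin 22) : sg t ≠ 0 := by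
  unfold sg; split_ifs <;> norm_num

/-- The terms of a given weight cancel. -/
theorem lev {u : Fin 5 → Fin 5 → ℚ} {e : Fin 5 → Fin 5 → ℤ} (h : Fa u e) (m : ℤ) :
    ∑ t : Fin 22, (if wt e t = m then sg t * mo u t else 0) = 0 := by
  refine lev_aux (fun t => sg t * mo u t) (wt e) (fun z hz => ?_) m
  have h1 := h z hz
  unfold G5 at h1
  rw [← h1]
  refine Finset.sum_congr rfl fun t _ => ?_
  rw [mo_pow u e z hz t]
  unfold sg
  ring

/-- No term has a weight of its own. -/
theorem lev_pair {u : Fin 5 → Fin 5 → ℚ} {e : Fin 5 → Fin 5 → ℤ}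
    (hu : ∀ i j, i ≠ j → u i j ≠ 0) (h : Fa u e) (t : Fin 22) : ∃ t', t' ≠ t ∧ wt e t' = wt e t := by
  by_contra hcon
  push Not at hcon
  have h1 := lev h (wt e t)
  rw [Finset.sum_eq_single t (fun b _ hb => by rw [if_neg (hcon b hb)])
    (fun h => absurd (Finset.mem_univ _) h), if_pos rfl] at h1
  rcases mul_eq_zero.1 h1 with h2 | h2
  · exact sg_ne t h2
  · have h3 : ∀ (t : Fin 22) (k : Fin 5), (tm t k).1 ≠ (tm t k).2 := by decide
    unfold mo at h2
    rw [Finset.prod_eq_zero_iff] at h2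
    obtain ⟨k, -, hk⟩ := h2
    exact hu _ _ (h3 t k) hk

end Pool.Agent.Y734.M
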