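import Mathlib
import Pool.Agent.Y734.I.StmsH
import Pool.Agent.Y734.M.Lev
import Pool.Agent.Y734.M.StmsN

/-!
# Project Y734/M: assembly
-/

set_option autoImplicit false

namespace Pool.Agent.Y734.M

open NumberField Filter

/-! ### The polynomial `G5` -/

theorem tm_ne : ∀ (t : Fin 22) (k : Fin 5), (tm t k).1 ≠ (tm t k).2 := by decide

theorem G5_congr {R : Type} [CommRing R] {u v : Fin 5 → Fin 5 → R}
    (h : ∀ i j, i ≠ j → u i j = v i j) : G5 u = G5 v := by
  unfold G5 mo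
  refine Finset.sum_congr rfl fun t _ => ?_
  congr 1
  exact Finset.prod_congr rfl fun k _ => h _ _ (tm_ne t k)

theorem G5_map {R T : Type} [CommRing R] [CommRing T] (φ : R →+* T) (u : Fin 5 → Fin 5 → R) :
    φ (G5 u) = G5 (fun i j => φ (u i j)) := by
  unfold G5 mo
  rw [map_sum]
  refine Finset.sum_congr rfl fun t _ => ?_
  rw [map_mul, map_prod]
  congr 1
  split_ifs <;> simp

theorem G5_homog {m : ℕ} (k : Fin 5 → Fin 5 → Fin m) :
    (G5 (fun i j => (MvPolynomial.X (k i j) : MvPolynomial (Fin m) ℚ))).IsHomogeneous 5 := by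
  unfold G5 mo
  refine MvPolynomial.IsHomogeneous.sum _ _ _ fun t _ => ?_
  have h1 : (∏ l : Fin 5, (MvPolynomial.X (k (tm t l).1 (tm t l).2) :
      MvPolynomial (Fin m) ℚ)).IsHomogeneous (∑ _l : Fin 5, 1) :=
    MvPolynomial.IsHomogeneous.prod _ _ _ fun l _ => MvPolynomial.isHomogeneous_X _ _
  have h2 : (∑ _l : Fin 5, 1) = 5 := by simp
  rw [h2] at h1
  have h3 : (if (t : ℕ) < 12 then (1 : MvPolynomial (Fin m) ℚ) else -1) =
      MvPolynomial.C (if (t : ℕ) < 12 then 1 else -1) := by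
    split_ifs <;> simp
  rw [h3]
  have h4 := (MvPolynomial.isHomogeneous_C (Fin m) (if (t : ℕ) < 12 then (1 : ℚ) else -1)).mul h1
  rwa [zero_add] at h4

theorem G5_perm (hdet : ∀ u : Fin 5 → Fin 5 → ℚ, Sy u → (∀ i, u i i = 0) →
      (Matrix.of u).det = 2 * G5 u) (u : Fin 5 → Fin 5 → ℚ) (hu : Sy u)
    (σ : Equiv.Perm (Fin 5)) : G5 (pull u σ) = G5 u := by
  set v : Fin 5 → Fin 5 → ℚ := fun i j => if i = j then 0 else u i j with hv
  have hvs : Sy v := by
    intro i j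
    simp only [hv]
    by_cases h : i = j
    · rw [if_pos h, if_pos h.symm]
    · rw [if_neg h, if_neg fun h' => h h'.symm, hu i j]
  have h1 := hdet v hvs (fun i => by simp [hv])
  have h2 := hdet (pull v σ) (fun i j => hvs _ _) (fun i => by simp [pull, hv])
  have h3 : Matrix.of (pull v σ) = (Matrix.of v).submatrix σ σ := by
    ext i j; rfl
  rw [h3, Matrix.det_submatrix_equiv_self, h1] at h2
  have h4 : G5 v = G5 u := G5_congr fun i j hij => by simp only [hv, if_neg hij]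
  have h5 : G5 (pull v σ) = G5 (pull u σ) := G5_congr fun i j hij => by
    simp only [pull, hv]
    rw [if_neg fun h => hij (σ.injective h)]
  rw [← h4, ← h5]
  linarith

theorem Fa_perm (hdet : ∀ u : Fin 5 → Fin 5 → ℚ, Sy u → (∀ i, u i i = 0) →
      (Matrix.of u).det = 2 * G5 u) {u : Fin 5 → Fin 5 → ℚ} {e : Fin 5 → Fin 5 → ℤ} (hu : Sy u)
    (he : Sy e) (h : Fa u e) (σ : Equiv.Perm (Fin 5)) : Fa (pull u σ) (pull e σ) := by
  intro z hz
  have h1 := G5_perm hdet (fun i j => u i j * z ^ e i j)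
    (fun i j => by simp only [hu i j, he i j]) σ
  rw [h z hz] at h1
  exact h1

/-- The classification for five points. -/
theorem p5 (hdet : ∀ u : Fin 5 → Fin 5 → ℚ, Sy u → (∀ i, u i i = 0) →
      (Matrix.of u).det = 2 * G5 u) (hp : PairStmt) (ha : AlgaStmt) (hb : AlgbStmt) : P5Stmt := by
  intro u e hsu hu hse hF
  rcases hp e hse (lev_pair hu hF) with h | ⟨σ, h⟩
  · exact Or.inl h
  refine Or.inr ⟨σ, ?_⟩
  have hsu' : Sy (pull u σ) := fun i j => hsu _ _
  have hu' : ∀ i j, i ≠ j → pull u σ i j ≠ 0 := fun i j hij =>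
    hu _ _ fun h' => hij (σ.injective h')
  have hF' := Fa_perm hdet hsu hse hF σ
  obtain ⟨a1, a2, a3⟩ := ha _ _ hsu' hu' hF'
  obtain ⟨b1, b2, b3, b4, b5, b6⟩ := hb _ _ hsu' hu' hF'
  rcases h with h | h | h | h | h | h | h | h | h
  · exact Or.inl ⟨h, a1 h⟩
  · exact Or.inr ⟨Or.inl h, a2 h⟩
  · exact Or.inr ⟨Or.inr h, a3 h⟩
  · exact absurd h b1
  · exact absurd h b2
  · exact absurd h b3
  · exact absurd h b4
  · exact absurd h b5
  · exact absurd h b6

/-! ### Exceptional points -/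

/-- four of the points have a rational cross ratio -/
def RatCR {L : Type} [Field L] {n : ℕ} (P : Fin n → Fin 2 → L) : Prop :=
  ∃ f : Fin 4 → Fin n, Function.Injective f ∧ ∃ q : ℚ, cr P (f 0) (f 1) (f 2) (f 3) = q

/-- an involution interchanges two pairs of the points and fixes the others -/
def InvP {L : Type} [Field L] {n : ℕ} (P : Fin n → Fin 2 → L) : Prop :=
  ∃ f : Fin 4 → Fin n, Function.Injective f ∧ ∃ g : Matrix (Fin 2) (Fin 2) L,
    g.trace = 0 ∧ g.det ≠ 0 ∧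
      ∀ i, Mp g (P i) (P ((Equiv.swap (f 0) (f 1) * Equiv.swap (f 2) (f 3)) i))

theorem swap_vals {n : ℕ} (f : Fin 4 → Fin n) (hf : Function.Injective f) :
    (Equiv.swap (f 0) (f 1) * Equiv.swap (f 2) (f 3)) (f 0) = f 1 ∧
    (Equiv.swap (f 0) (f 1) * Equiv.swap (f 2) (f 3)) (f 1) = f 0 ∧
    (Equiv.swap (f 0) (f 1) * Equiv.swap (f 2) (f 3)) (f 2) = f 3 ∧
    (Equiv.swap (f 0) (f 1) * Equiv.swap (f 2) (f 3)) (f 3) = f 2 ∧
    ∀ i, (∀ k, i ≠ f k) → (Equiv.swap (f 0) (f 1) * Equiv.swap (f 2) (f 3)) i = i := by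
  have h01 : f 0 ≠ f 1 := fun h => absurd (hf h) (by decide)
  have h02 : f 0 ≠ f 2 := fun h => absurd (hf h) (by decide)
  have h03 : f 0 ≠ f 3 := fun h => absurd (hf h) (by decide)
  have h12 : f 1 ≠ f 2 := fun h => absurd (hf h) (by decide)
  have h13 : f 1 ≠ f 3 := fun h => absurd (hf h) (by decide)
  have h23 : f 2 ≠ f 3 := fun h => absurd (hf h) (by decide)
  refine ⟨?_, ?_, ?_, ?_, ?_⟩
  · rw [Equiv.Perm.mul_apply, Equiv.swap_apply_of_ne_of_ne h02 h03, Equiv.swap_apply_left]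
  · rw [Equiv.Perm.mul_apply, Equiv.swap_apply_of_ne_of_ne h12 h13, Equiv.swap_apply_right]
  · rw [Equiv.Perm.mul_apply, Equiv.swap_apply_left, Equiv.swap_apply_of_ne_of_ne h03.symm h13.symm]
  · rw [Equiv.Perm.mul_apply, Equiv.swap_apply_right,
      Equiv.swap_apply_of_ne_of_ne h02.symm h12.symm]
  · intro i hi
    rw [Equiv.Perm.mul_apply, Equiv.swap_apply_of_ne_of_ne (hi 2) (hi 3),
      Equiv.swap_apply_of_ne_of_ne (hi 0) (hi 1)]

/-- five points -/
theorem inv_five (hinv : InvStmt) {L : Type} [Field L] [CharZero L] {P : Fin 5 → Fin 2 → L}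
    (hP : Nd P) (p : Fin 5 → Fin 5) (hp : Function.Injective p)
    (hV : VV P (p 0) (p 1) (p 2) (p 3) (p 4)) : InvP P := by
  obtain ⟨g, hg1, hg2, h03, h30, h12, h21, h44, -⟩ := hinv L (fun i => P (p i))
    (fun i j hij => hP _ _ fun h => hij (hp h)) hV
  have hf : Function.Injective (fun k : Fin 4 => p (![0, 3, 1, 2] k)) := by
    refine hp.comp ?_
    decide
  refine ⟨fun k => p (![0, 3, 1, 2] k), hf, g, hg1, hg2, ?_⟩
  obtain ⟨s0, s1, s2, s3, s4⟩ := swap_vals _ hf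
  intro i
  have hsurj : Function.Surjective p := Finite.surjective_of_injective hp
  obtain ⟨k, rfl⟩ := hsurj i
  have hk : k = 0 ∨ k = 3 ∨ k = 1 ∨ k = 2 ∨ k = 4 := by
    fin_cases k <;> simp
  rcases hk with rfl | rfl | rfl | rfl | rfl
  · change Mp g (P (p 0)) (P ((Equiv.swap (p 0) (p 3) * Equiv.swap (p 1) (p 2)) (p 0)))
    rw [show (Equiv.swap (p 0) (p 3) * Equiv.swap (p 1) (p 2)) (p 0) = p 3 from s0]
    exact h03
  · change Mp g (P (p 3)) (P ((Equiv.swap (p 0) (p 3) * Equiv.swap (p 1) (p 2)) (p 3)))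
    rw [show (Equiv.swap (p 0) (p 3) * Equiv.swap (p 1) (p 2)) (p 3) = p 0 from s1]
    exact h30
  · change Mp g (P (p 1)) (P ((Equiv.swap (p 0) (p 3) * Equiv.swap (p 1) (p 2)) (p 1)))
    rw [show (Equiv.swap (p 0) (p 3) * Equiv.swap (p 1) (p 2)) (p 1) = p 2 from s2]
    exact h12
  · change Mp g (P (p 2)) (P ((Equiv.swap (p 0) (p 3) * Equiv.swap (p 1) (p 2)) (p 2)))
    rw [show (Equiv.swap (p 0) (p 3) * Equiv.swap (p 1) (p 2)) (p 2) = p 1 from s3]
    exact h21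
  · have h5 := s4 (p 4) (fun k h => by
      have h6 := hp h
      fin_cases k <;> simp at h6)
    change Mp g (P (p 4)) (P ((Equiv.swap (p 0) (p 3) * Equiv.swap (p 1) (p 2)) (p 4)))
    rw [show (Equiv.swap (p 0) (p 3) * Equiv.swap (p 1) (p 2)) (p 4) = p 4 from h5]
    exact h44

/-- six points -/
theorem inv_six (hinv : InvStmt) {L : Type} [Field L] [CharZero L] {P : Fin 6 → Fin 2 → L}
    (hP : Nd P) (p : Fin 6 → Fin 6) (hp : Function.Injective p)
    (hV : VV P (p 0) (p 1) (p 2) (p 3) (p 4)) (hV' : VV P (p 0) (p 1) (p 2) (p 3) (p 5)) :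
    InvP P := by
  have hi : Function.Injective (![0, 1, 2, 3, 4] : Fin 5 → Fin 6) := by decide
  have hne : ∀ i : Fin 5, (![0, 1, 2, 3, 4] : Fin 5 → Fin 6) i ≠ 5 := by decide
  obtain ⟨g, hg1, hg2, h03, h30, h12, h21, h44, h55⟩ := hinv L (fun i => P (p (![0, 1, 2, 3, 4] i)))
    (fun i j hij => hP _ _ fun h => hij (hi (hp h))) hV
  have h55' : Mp g (P (p 5)) (P (p 5)) :=
    h55 (P (p 5)) (fun i => hP _ _ fun h => hne i (hp h)) hV'
  have hf : Function.Injective (fun k : Fin 4 => p (![0, 3, 1, 2] k)) := by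
    refine hp.comp ?_
    decide
  refine ⟨fun k => p (![0, 3, 1, 2] k), hf, g, hg1, hg2, ?_⟩
  obtain ⟨s0, s1, s2, s3, s4⟩ := swap_vals _ hf
  intro i
  have hsurj : Function.Surjective p := Finite.surjective_of_injective hp
  obtain ⟨k, rfl⟩ := hsurj i
  have hk : k = 0 ∨ k = 3 ∨ k = 1 ∨ k = 2 ∨ k = 4 ∨ k = 5 := by
    fin_cases k <;> simp
  rcases hk with rfl | rfl | rfl | rfl | rfl | rfl
  · change Mp g (P (p 0)) (P ((Equiv.swap (p 0) (p 3) * Equiv.swap (p 1) (p 2)) (p 0)))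
    rw [show (Equiv.swap (p 0) (p 3) * Equiv.swap (p 1) (p 2)) (p 0) = p 3 from s0]
    exact h03
  · change Mp g (P (p 3)) (P ((Equiv.swap (p 0) (p 3) * Equiv.swap (p 1) (p 2)) (p 3)))
    rw [show (Equiv.swap (p 0) (p 3) * Equiv.swap (p 1) (p 2)) (p 3) = p 0 from s1]
    exact h30
  · change Mp g (P (p 1)) (P ((Equiv.swap (p 0) (p 3) * Equiv.swap (p 1) (p 2)) (p 1)))
    rw [show (Equiv.swap (p 0) (p 3) * Equiv.swap (p 1) (p 2)) (p 1) = p 2 from s2]
    exact h12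
  · change Mp g (P (p 2)) (P ((Equiv.swap (p 0) (p 3) * Equiv.swap (p 1) (p 2)) (p 2)))
    rw [show (Equiv.swap (p 0) (p 3) * Equiv.swap (p 1) (p 2)) (p 2) = p 1 from s3]
    exact h21
  · have h5 := s4 (p 4) (fun k h => by
      have h6 := hp h
      fin_cases k <;> simp at h6)
    change Mp g (P (p 4)) (P ((Equiv.swap (p 0) (p 3) * Equiv.swap (p 1) (p 2)) (p 4)))
    rw [show (Equiv.swap (p 0) (p 3) * Equiv.swap (p 1) (p 2)) (p 4) = p 4 from h5]
    exact h44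
  · have h5 := s4 (p 5) (fun k h => by
      have h6 := hp h
      fin_cases k <;> simp at h6)
    change Mp g (P (p 5)) (P ((Equiv.swap (p 0) (p 3) * Equiv.swap (p 1) (p 2)) (p 5)))
    rw [show (Equiv.swap (p 0) (p 3) * Equiv.swap (p 1) (p 2)) (p 5) = p 5 from h5]
    exact h55'

end Pool.Agent.Y734.M
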