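import Mathlib
import Pool.Agent.Y734.M.Asm

/-!
# Project Y734/M: assembly, the finiteness theorem
-/

set_option autoImplicit false

namespace Pool.Agent.Y734.M

open NumberField Filter

theorem tri0_pull {m n : ℕ} {e : Fin n → Fin n → ℤ} (h : Tri0 e) {f : Fin m → Fin n}
    (hf : Function.Injective f) : Tri0 (pull e f) := fun g hg => h (f ∘ g) (hf.comp hg)

theorem nd_pull {m n : ℕ} {L : Type} [Field L] {P : Fin n → Fin 2 → L} (hP : Nd P)
    {f : Fin m → Fin n} (hf : Function.Injective f) : Nd (fun i => P (f i)) :=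
  fun _ _ hij => hP _ _ fun h => hij (hf h)

theorem inj4 {n : ℕ} (a b c d : Fin n) (h1 : a ≠ b) (h2 : a ≠ c) (h3 : a ≠ d) (h4 : b ≠ c)
    (h5 : b ≠ d) (h6 : c ≠ d) : Function.Injective ![a, b, c, d] := by
  intro i j hij
  fin_cases i <;> fin_cases j <;>
    simp only [Fin.zero_eta, Fin.mk_one, Fin.reduceFinMk, Matrix.cons_val_zero,
      Matrix.cons_val_one, Matrix.cons_val] at hij ⊢
  all_goals first
    | exact absurd hij h1
    | exact absurd hij h2
    | exact absurd hij h3
    | exact absurd hij h4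
    | exact absurd hij h5
    | exact absurd hij h6
    | exact absurd hij.symm h1
    | exact absurd hij.symm h2
    | exact absurd hij.symm h3
    | exact absurd hij.symm h4
    | exact absurd hij.symm h5
    | exact absurd hij.symm h6

/-- four of at least seven indices are contained in seven -/
theorem ext_seven {n : ℕ} (hn : 7 ≤ n) (f : Fin 4 → Fin n) (hf : Function.Injective f) :
    ∃ (g : Fin 7 → Fin n) (k : Fin 4 → Fin 7), Function.Injective g ∧ Function.Injective k ∧
      ∀ i, f i = g (k i) := by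
  classical
  obtain ⟨T, hT, -, hT7⟩ := Finset.exists_subsuperset_card_eq
    (Finset.subset_univ (Finset.univ.image f)) (n := 7) (by
      rw [Finset.card_image_of_injective _ hf]; simp) (by simpa using hn)
  let E : Fin 7 ≃o T := T.orderIsoOfFin hT7
  have hmem : ∀ i, f i ∈ T := fun i => hT (Finset.mem_image_of_mem _ (Finset.mem_univ _))
  refine ⟨fun i => (E i : Fin n), fun i => E.symm ⟨f i, hmem i⟩, ?_, ?_, ?_⟩
  · intro i j h
    exact E.injective (Subtype.ext h)
  · intro i j h
    have h1 := E.symm.injective h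
    exact hf (congrArg Subtype.val h1)
  · intro i
    simp

/-- An integral point whose norms lie in a nontrivial family is exceptional. -/
theorem exc_of (hp5 : P5Stmt) (hk6 : KsixStmt) (hk7 : KsevStmt) (hrat : RatStmt) (heul : EulStmt)
    (hinv : InvStmt) {L : Type} [Field L] [NumberField L] (hL : Module.finrank ℚ L = 2) {n : ℕ}
    (hn : 2 ≤ n) {P : Fin (n + 3) → Fin 2 → L} (hP : Nd P) (hsy : Sy (nu P))
    (hnz : ∀ i j, i ≠ j → nu P i j ≠ 0) {e : Fin (n + 3) → Fin (n + 3) → ℤ} (hse : Sy e)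
    (hfam : ∀ f : Fin 5 → Fin (n + 3), Function.Injective f → Fa (pull (nu P) f) (pull e f))
    (hnt : ¬ Tri0 e) : (n + 3 = 5 ∧ RatCR P) ∨ (n + 3 ≤ 6 ∧ InvP P) := by
  have h5 : ∀ f : Fin 5 → Fin (n + 3), Function.Injective f →
      Tri0 (pull e f) ∨ ∃ σ : Equiv.Perm (Fin 5),
      (Ray rA (pull e (f ∘ σ)) ∧ HN (nu P) ((f ∘ σ) 0) ((f ∘ σ) 2) ((f ∘ σ) 3) ((f ∘ σ) 4) = 0) ∨
      ((Ray rB (pull e (f ∘ σ)) ∨ Ray rC (pull e (f ∘ σ))) ∧
        EU (nu P) ((f ∘ σ) 0) ((f ∘ σ) 1) ((f ∘ σ) 2) ((f ∘ σ) 3) ((f ∘ σ) 4) = 0) := by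
    intro f hf
    exact hp5 (pull (nu P) f) (pull e f) (fun i j => hsy _ _)
      (fun i j hij => hnz _ _ fun h => hij (hf h)) (fun i j => hse _ _) (hfam f hf)
  obtain rfl | rfl | h7 : n = 2 ∨ n = 3 ∨ 4 ≤ n := by omega
  · -- five points
    have hid : Function.Injective (id : Fin 5 → Fin 5) := fun _ _ h => h
    rcases h5 id hid with h | ⟨σ, ⟨-, h⟩ | ⟨-, h⟩⟩
    · exact absurd h hnt
    · refine Or.inl ⟨rfl, ![σ 0, σ 2, σ 3, σ 4], ?_, ?_⟩
      · have h1 : (![σ 0, σ 2, σ 3, σ 4] : Fin 4 → Fin 5) = σ ∘ ![0, 2, 3, 4] := by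
          funext i; fin_cases i <;> rfl
        rw [h1]
        refine σ.injective.comp ?_
        decide
      · have h1 : Function.Injective (![σ 0, σ 2, σ 3, σ 4] : Fin 4 → Fin 5) := by
          have h1 : (![σ 0, σ 2, σ 3, σ 4] : Fin 4 → Fin 5) = σ ∘ ![0, 2, 3, 4] := by
            funext i; fin_cases i <;> rfl
          rw [h1]
          refine σ.injective.comp ?_
          decide
        exact hrat L hL 2 P hP _ h1 h
    · refine Or.inr ⟨by norm_num, ?_⟩
      have h1 := heul L hL 2 P hP (fun i => σ i) σ.injective h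
      exact inv_five hinv hP (fun i => σ i) σ.injective h1
  · -- six points
    obtain ⟨g, hg, h1, h2⟩ := hk6 e
      (fun p => EU (nu P) (p 0) (p 1) (p 2) (p 3) (p 4) = 0) hse hnt
      (fun p hp => by
        simp only [Matrix.cons_val_zero, Matrix.cons_val_one, Matrix.cons_val] at hp ⊢
        rw [← hp]
        unfold EU
        rw [hsy (p 3) (p 1), hsy (p 3) (p 2), hsy (p 1) (p 0), hsy (p 2) (p 0), hsy (p 3) (p 0)]
        ring)
      (fun p hp => by
        simp only [Matrix.cons_val_zero, Matrix.cons_val_one, Matrix.cons_val] at hp ⊢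
        rw [← hp]
        unfold EU
        rw [hsy (p 1) (p 0), hsy (p 3) (p 2)]
        ring)
      (fun f hf => by
        rcases h5 f hf with h | ⟨σ, h⟩
        · exact Or.inl h
        · refine Or.inr ⟨σ, ?_⟩
          rcases h with ⟨h, -⟩ | ⟨h, h'⟩
          · exact Or.inl h
          · exact Or.inr ⟨h, h'⟩)
    refine Or.inr ⟨by norm_num, ?_⟩
    have hi : Function.Injective (![0, 1, 2, 3, 4] : Fin 5 → Fin 6) := by decide
    have hi' : Function.Injective (![0, 1, 2, 3, 5] : Fin 5 → Fin 6) := by decide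
    have hV := heul L hL 3 P hP (fun i => g (![0, 1, 2, 3, 4] i)) (hg.comp hi) h1
    have hV' := heul L hL 3 P hP (fun i => g (![0, 1, 2, 3, 5] i)) (hg.comp hi') h2
    exact inv_six hinv hP g hg hV hV'
  · -- seven points
    exfalso
    apply hnt
    intro f hf
    obtain ⟨g, k, hg, hk, hfg⟩ := ext_seven (by omega : 7 ≤ n + 3) f hf
    have h7 : Tri0 (pull e g) := by
      refine hk7 (pull e g) (fun i j => hse _ _) fun f' hf' => ?_
      rcases h5 (g ∘ f') (hg.comp hf') with h | ⟨σ, h⟩
      · exact Or.inl h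
      · refine Or.inr ⟨σ, ?_⟩
        rcases h with ⟨h, -⟩ | ⟨h | h, -⟩
        · exact Or.inl h
        · exact Or.inr (Or.inl h)
        · exact Or.inr (Or.inr h)
    have h8 := h7 k hk
    simp only [pull] at h8
    rw [hfg 0, hfg 1, hfg 2, hfg 3]
    exact h8

/-- The finiteness theorem. -/
theorem main (htor : Pool.Agent.Y734.I.TorStmt) (hp5 : P5Stmt) (hk6 : KsixStmt) (hk7 : KsevStmt)
    (hsun : SunStmt) (hrat : RatStmt) (heul : EulStmt) (hinv : InvStmt) (hfins : FinsStmt)
    (S : Finset ℕ) (hS : ∀ p ∈ S, p.Prime) (n : ℕ) (hn : 2 ≤ n) :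
    Set.Finite {c : Fin (n + 3) → Fin (n + 3) → Fin (n + 3) → Fin (n + 3) → ℂ |
      ∃ (L : Type) (_ : Field L) (_ : NumberField L) (P : Fin (n + 3) → Fin 2 → L) (φ : L →+* ℂ),
        Module.finrank ℚ L = 2 ∧ IP S P ∧ ¬ ((n + 3 = 5 ∧ RatCR P) ∨ (n + 3 ≤ 6 ∧ InvP P)) ∧
          c = fun i j k l => φ (cr P i j k l)} := by
  classical
  by_contra hinf
  have hinf' : Set.Infinite {c : Fin (n + 3) → Fin (n + 3) → Fin (n + 3) → Fin (n + 3) → ℂ |
      ∃ (L : Type) (_ : Field L) (_ : NumberField L) (P : Fin (n + 3) → Fin 2 → L) (φ : L →+* ℂ),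
        Module.finrank ℚ L = 2 ∧ IP S P ∧ ¬ ((n + 3 = 5 ∧ RatCR P) ∨ (n + 3 ≤ 6 ∧ InvP P)) ∧
          c = fun i j k l => φ (cr P i j k l)} := hinf
  let s := hinf'.natEmbedding
  have hs := fun t => (s t).2
  simp only [Set.mem_ofPred_eq] at hs
  choose L iF iN P φ hL hIP hex hc using hs
  have hdat := fun t => hsun S hS (L t) (hL t) n (P t) (hIP t)
  set U : Ultrafilter ℕ := hyperfilter ℕ with hU
  -- the units
  set E : Fin (n + 3) × Fin (n + 3) ≃ Fin ((n + 3) * (n + 3)) := finProdFinEquiv with hE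
  set F : Fin ((n + 3) * (n + 3)) → ℕ → ℚ := fun k t =>
    if (E.symm k).1 = (E.symm k).2 then 1 else nu (P t) (E.symm k).1 (E.symm k).2 with hF
  have hFE : ∀ i j t, i ≠ j → F (E (i, j)) t = nu (P t) i j := by
    intro i j t hij
    simp only [hF, Equiv.symm_apply_apply]
    rw [if_neg hij]
  have hFne : ∀ k t, F k t ≠ 0 := by
    intro k t
    simp only [hF]
    split_ifs with h
    · exact one_ne_zero
    · exact (hdat t).2.1 _ _ h
  have hFval : ∀ k k' t (p : ℕ), p.Prime → p ∉ S →
      padicValRat p (F k t) = padicValRat p (F k' t) := by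
    have h0 : ∀ k t (p : ℕ), p.Prime → p ∉ S → padicValRat p (F k t) = 0 := by
      intro k t p hp hpS
      simp only [hF]
      split_ifs with h
      · simp
      · exact (hdat t).2.2.2.2.1 _ _ h p hp hpS
    intro k k' t p hp hpS
    rw [h0 k t p hp hpS, h0 k' t p hp hpS]
  obtain ⟨α, hα1, hα2⟩ := htor U S hS _ F hFne hFval 5
  set e : Fin (n + 3) → Fin (n + 3) → ℤ := fun i j => α (E (i, j)) with he
  have heq : ∀ a b : Fin (n + 3) × Fin (n + 3), (∀ t, F (E b) t = F (E a) t) →
      α (E a) = α (E b) := by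
    intro a b h
    rw [hα1]
    exact ⟨1, Filter.Eventually.of_forall fun t => by rw [h t, one_mul]⟩
  have hse : Sy e := by
    intro i j
    refine heq (i, j) (j, i) fun t => ?_
    by_cases hij : i = j
    · rw [hij]
    · rw [hFE _ _ _ hij, hFE _ _ _ fun h => hij h.symm]
      exact (hdat t).1 _ _
  have h12 : (1 : Fin (n + 3)) ≠ 2 := by
    intro h
    have := congrArg Fin.val h
    rw [Fin.val_one', Fin.val_two] at this
    rw [Nat.mod_eq_of_lt (by omega)] at this
    omega
  have he0 : ∀ i, i ≠ 0 → e 0 i = e 1 2 := by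
    intro i hi
    refine heq (0, i) (1, 2) fun t => ?_
    rw [hFE _ _ _ h12, hFE _ _ _ (Ne.symm hi), (hdat t).2.2.1 i hi, (hdat t).2.2.2.1]
  -- the families
  have hfam : ∀ f : Fin 5 → Fin (n + 3), Function.Injective f →
      ∀ᶠ t in (U : Filter ℕ), Fa (pull (nu (P t)) f) (pull e f) := by
    intro f hf
    have hev : ∀ (y : Fin ((n + 3) * (n + 3)) → ℚ), MvPolynomial.eval y
        (G5 (fun i j => (MvPolynomial.X (E (f i, f j)) :
          MvPolynomial (Fin ((n + 3) * (n + 3))) ℚ))) = G5 (fun i j => y (E (f i, f j))) := by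
      intro y
      rw [G5_map]
      simp only [MvPolynomial.eval_X]
    have h1 := hα2 5 _ le_rfl (G5_homog (fun i j => E (f i, f j)))
      (Filter.Eventually.of_forall fun t => by
        rw [hev]
        rw [← (hdat t).2.2.2.2.2 f hf]
        exact G5_congr fun i j hij => hFE _ _ _ fun h => hij (hf h))
    filter_upwards [h1] with t ht z hz
    have h2 := ht z hz
    rw [hev] at h2
    rw [← h2]
    refine G5_congr fun i j hij => ?_
    simp only [pull, he]
    rw [hFE _ _ _ fun h => hij (hf h)]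
  have hfam' : ∀ᶠ t in (U : Filter ℕ), ∀ f : Fin 5 → Fin (n + 3), Function.Injective f →
      Fa (pull (nu (P t)) f) (pull e f) := by
    rw [Filter.eventually_all]
    intro f
    by_cases hf : Function.Injective f
    · filter_upwards [hfam f hf] with t ht _ using ht
    · exact Filter.Eventually.of_forall fun t h => absurd h hf
  by_cases hnt : Tri0 e
  · -- constant norms
    have hconst : ∀ i j, i ≠ j → e i j = e 1 2 := by
      have h01 : (0 : Fin (n + 3)) ≠ 1 := by
        intro h
        have := congrArg Fin.val h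
        rw [Fin.val_one', Fin.val_zero] at this
        rw [Nat.mod_eq_of_lt (by omega)] at this
        omega
      have h02 : (0 : Fin (n + 3)) ≠ 2 := by
        intro h
        have := congrArg Fin.val h
        rw [Fin.val_two, Fin.val_zero] at this
        omega
      have key : ∀ a b c d : Fin (n + 3), a ≠ b → a ≠ c → a ≠ d → b ≠ c → b ≠ d → c ≠ d →
          e a b + e c d = e a c + e b d := fun a b c d h1 h2 h3 h4 h5 h6 =>
        hnt ![a, b, c, d] (inj4 a b c d h1 h2 h3 h4 h5 h6)
      -- indices `i ≠ 0, 1, 2`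
      have hA : ∀ i, i ≠ 0 → i ≠ 1 → i ≠ 2 → e 1 i = e 1 2 ∧ e 2 i = e 1 2 := by
        intro i h0 h1 h2
        have k1 := key 0 1 2 i h01 h02 (Ne.symm h0) h12 (Ne.symm h1) (Ne.symm h2)
        have k2 := key 0 1 i 2 h01 (Ne.symm h0) h02 (Ne.symm h1) h12 h2
        have e1 := he0 1 (Ne.symm h01)
        have e2 := he0 2 (Ne.symm h02)
        have e3 := he0 i h0
        have e4 := hse i 2
        constructor <;> linarith
      have hB : ∀ i j, i ≠ j → i ≠ 0 → j ≠ 0 → e i j = e 1 2 := by
        intro i j hij hi hj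
        by_cases hi1 : i = 1
        · subst hi1
          by_cases hj2 : j = 2
          · rw [hj2]
          · exact (hA j hj (Ne.symm hij) hj2).1
        by_cases hj1 : j = 1
        · subst hj1
          rw [hse]
          by_cases hi2 : i = 2
          · rw [hi2]
          · exact (hA i hi hij hi2).1
        -- `i, j ≠ 0, 1`
        have k1 := key 0 1 i j h01 (Ne.symm hi) (Ne.symm hj) (Ne.symm hi1) (Ne.symm hj1) hij
        have e1 := he0 1 (Ne.symm h01)
        have e3 := he0 i hi
        have e4 : e 1 j = e 1 2 := by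
          by_cases hj2 : j = 2
          · rw [hj2]
          · exact (hA j hj hj1 hj2).1
        linarith
      intro i j hij
      by_cases hi : i = 0
      · subst hi
        exact he0 j (Ne.symm hij)
      · by_cases hj : j = 0
        · subst hj
          rw [hse]
          exact he0 i hi
        · exact hB i j hij hi hj
    -- the norms are constant along `U`
    have h1 : ∀ i j, i ≠ j → ∃ a : ℚ, ∀ᶠ t in (U : Filter ℕ), nu (P t) i j = a := by
      intro i j hij
      have h2 : α (E (1, 2)) = α (E (i, j)) := (hconst i j hij).symm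
      rw [hα1] at h2
      obtain ⟨a, ha⟩ := h2
      refine ⟨a, ?_⟩
      filter_upwards [ha] with t ht
      rw [hFE _ _ _ hij, hFE _ _ _ h12, (hdat t).2.2.2.1, mul_one] at ht
      exact ht
    have h2 : ∃ a : Fin (n + 3) → Fin (n + 3) → ℚ, ∀ᶠ t in (U : Filter ℕ),
        ∀ i j, i ≠ j → nu (P t) i j = a i j := by
      have h3 : ∀ i j, ∃ a : ℚ, i ≠ j → ∀ᶠ t in (U : Filter ℕ), nu (P t) i j = a := by
        intro i j
        by_cases hij : i = j
        · exact ⟨0, fun h => absurd hij h⟩
        · obtain ⟨a, ha⟩ := h1 i j hij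
          exact ⟨a, fun _ => ha⟩
      choose a ha using h3
      refine ⟨a, ?_⟩
      rw [Filter.eventually_all]
      intro i
      rw [Filter.eventually_all]
      intro j
      by_cases hij : i = j
      · exact Filter.Eventually.of_forall fun t h => absurd hij h
      · filter_upwards [ha i j hij] with t ht _ using ht
    obtain ⟨a, ha⟩ := h2
    have hfin := hfins n a
    have hset : Set.Infinite {t | ∀ i j, i ≠ j → nu (P t) i j = a i j} := by
      intro hfi
      have h4 : {t | ∀ i j, i ≠ j → nu (P t) i j = a i j}ᶜ ∈ (U : Filter ℕ) := by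
        rw [hU]
        exact Filter.mem_hyperfilter_of_finite_compl (by simpa using hfi)
      have h5 := Filter.inter_mem ha h4
      rw [Set.inter_compl_self] at h5
      exact Ultrafilter.empty_notMem h5
    refine hset (Set.Finite.of_finite_image (f := fun t => ((s t : _) :
      Fin (n + 3) → Fin (n + 3) → Fin (n + 3) → Fin (n + 3) → ℂ)) (hfin.subset ?_) ?_)
    · rintro c ⟨t, ht, rfl⟩
      exact ⟨L t, iF t, iN t, P t, φ t, hL t, (hIP t).1, ht, hc t⟩
    · intro t _ t' _ htt
      exact s.injective (Subtype.ext htt)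
  · obtain ⟨t, ht⟩ := hfam'.exists
    exact hex t (exc_of hp5 hk6 hk7 hrat heul hinv (hL t) hn (hIP t).1 (hdat t).1 (hdat t).2.1 hse
      ht hnt)

end Pool.Agent.Y734.M
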